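import Pool.Agent.L0h13.FC.Defs
import Pool.Agent.L0h13.FC.Alg
import Pool.Agent.L0h13.FC.Comb

/-!
# The direct factors of the cohomology of a Fermat curve
-/

open CategoryTheory AlgebraicGeometry TensorProduct

universe u v

namespace Pool.Agent.L0h13.FC

open Pool.Agent.H914 Pool.Agent.H914.VarClass Pool.Agent.H914.VarClass.Obj
  Pool.Agent.H914.WeilCohomology Pool.Agent.R908

variable {k : Type u} [Field k] {𝒱 : VarClass k} {ops : CycleOps 𝒱}
  {W : WeilCohomology.{u, v} ops} {F : CurveData W}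

section Point

variable {X : 𝒱.Obj}

/-- The decomposition of the cohomology of a curve. -/
lemma curve_decomp (hd : X.dim = 1) {P : X.Cycles} (hP : X.IsCyc 1 P)
    (hP1 : X.V.degCycle P = 1) {y : W.H X} :
    ∃ y₁ ∈ W.gr X 1, y = rankOne W (W.cl X P) (1 : W.H X) y + rankOne W (1 : W.H X) (W.cl X P) y +
      y₁ := by
  have hPt : W.tr X (W.cl X P) = 1 := by
    rw [W.tr_cl (by rw [hd]; exact hP), hP1, Rat.cast_one]
  have hPg : W.cl X P ∈ W.gr X 2 := W.cl_mem hP
  refine Pool.Agent.H914.gr_induction (W.isInternal X) (p := fun y => ∃ y₁ ∈ W.gr X 1,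
    y = rankOne W (W.cl X P) (1 : W.H X) y + rankOne W (1 : W.H X) (W.cl X P) y + y₁) ?_ ?_ y
  · intro i a ha
    rw [rankOne_apply, rankOne_apply, one_mul]
    rcases Nat.lt_or_ge 2 i with h | h
    · have h1 : a = 0 := by
        rw [W.gr_eq_bot X i (by omega), Submodule.mem_bot] at ha
        exact ha
      refine ⟨0, Submodule.zero_mem _, ?_⟩
      rw [h1, mul_zero, map_zero, zero_smul, zero_smul, add_zero, add_zero]
    · interval_cases i
      · refine ⟨0, Submodule.zero_mem _, ?_⟩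
        have h1 := ha
        rw [W.gr_zero X, Submodule.mem_span_singleton] at h1
        obtain ⟨c, rfl⟩ := h1
        rw [W.tr_eq_zero ha (by omega), zero_smul, add_zero, add_zero, mul_smul_comm, mul_one,
          map_smul, hPt, smul_eq_mul, mul_one]
      · refine ⟨a, ha, ?_⟩
        rw [W.tr_eq_zero (W.mul_mem hPg ha) (by omega), W.tr_eq_zero ha (by omega), zero_smul,
          zero_smul, zero_add, zero_add]
      · refine ⟨0, Submodule.zero_mem _, ?_⟩
        rw [W.tr_eq_zero (W.mul_mem hPg ha) (by omega), zero_smul, zero_add, add_zero]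
        have h1 : a - W.tr X a • W.cl X P = 0 := by
          apply Pool.Agent.H281R3.HT.top_eq_zero
          · rw [hd]
            exact Submodule.sub_mem _ ha (Submodule.smul_mem _ _ hPg)
          · rw [map_sub, map_smul, hPt, smul_eq_mul, mul_one, sub_self]
        exact sub_eq_zero.1 h1
  · rintro a b ⟨a₁, ha₁, ha⟩ ⟨b₁, hb₁, hb⟩
    refine ⟨a₁ + b₁, Submodule.add_mem _ ha₁ hb₁, ?_⟩
    rw [map_add, map_add]
    conv_lhs => rw [ha, hb]
    abel

end Point

section Char

variable {m : ℕ} (hA : F.IsAction m)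

/-- The additive character `a ↦ ζ ^ a`. -/
noncomputable def psi [NeZero m] (hA : F.IsAction m) : AddChar (ZMod m) W.K :=
  AddChar.zmodChar m hA.prim.pow_eq_one

lemma psi_apply [NeZero m] (a : ZMod m) : psi hA a = F.ζ m ^ a.val := AddChar.zmodChar_apply _ a

lemma psi_prim [NeZero m] : (psi hA).IsPrimitive :=
  AddChar.zmodChar_primitive_of_primitive_root m hA.prim

/-- The pairing of characters and group elements. -/
def dot (χ g : ZMod m × ZMod m) : ZMod m := χ.1 * g.1 + χ.2 * g.2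

lemma dot_add (χ g h : ZMod m × ZMod m) : dot χ (g + h) = dot χ g + dot χ h := by
  simp only [dot, Prod.fst_add, Prod.snd_add]
  ring

lemma add_dot (χ χ' g : ZMod m × ZMod m) : dot (χ + χ') g = dot χ g + dot χ' g := by
  simp only [dot, Prod.fst_add, Prod.snd_add]
  ring

lemma dot_neg (χ g : ZMod m × ZMod m) : dot χ (-g) = -dot χ g := by
  simp only [dot, Prod.fst_neg, Prod.snd_neg]
  ring

/-- Eigenvectors. -/
def IsEig [NeZero m] (hA : F.IsAction m) (χ : ZMod m × ZMod m) (y : W.H (F.C m)) : Prop :=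
  ∀ g, W.map (F.act m g) y = psi hA (dot χ g) • y

lemma isEig_iff [NeZero m] (a b : ZMod m) (y : W.H (F.C m)) :
    IsEig hA (a, b) y ↔ F.IsEigen ⟨m, a, b⟩ y := by
  refine forall_congr' fun g => ?_
  rw [psi_apply]
  rfl

include hA in
lemma tr_act (g : ZMod m × ZMod m) (y : W.H (F.C m)) :
    W.tr _ (W.map (F.act m g) y) = W.tr _ y := by
  have h1 := W.tr_push (F.act m g) 1 y
  rw [hA.push_one, one_mul, one_mul] at h1
  exact h1.symm

lemma IsEig.orth [NeZero m] {χ χ' : ZMod m × ZMod m} {y y' : W.H (F.C m)} (h : IsEig hA χ y)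
    (h' : IsEig hA χ' y') (hne : W.tr _ (y * y') ≠ 0) : χ + χ' = 0 := by
  have h1 : ∀ g, psi hA (dot (χ + χ') g) = 1 := by
    intro g
    have h2 := tr_act hA g (y * y')
    rw [map_mul (W.map (F.act m g)), h g, h' g, smul_mul_smul_comm, map_smul, smul_eq_mul,
      ← AddChar.map_add_eq_mul, ← add_dot] at h2
    have h3 : (psi hA (dot (χ + χ') g) - 1) * W.tr _ (y * y') = 0 := by
      rw [sub_mul, one_mul, h2, sub_self]
    rcases mul_eq_zero.1 h3 with h | h
    · exact sub_eq_zero.1 h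
    · exact absurd h hne
  have h4 : ∀ b : ZMod m, (∀ s, psi hA (s * b) = 1) → b = 0 := by
    intro b hb
    by_contra hb0
    have h5 := AddChar.sum_mulShift b (psi_prim hA)
    rw [if_neg hb0, Finset.sum_congr rfl (fun s _ => hb s), Finset.sum_const, Finset.card_univ,
      ZMod.card, nsmul_eq_mul, mul_one, Nat.cast_zero] at h5
    have h6 : m = 0 := by exact_mod_cast h5
    exact NeZero.ne m h6
  apply Prod.ext
  · apply h4
    intro s
    have h5 := h1 (s, 0)
    simp only [dot, mul_zero, add_zero] at h5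
    rw [mul_comm]
    exact h5
  · apply h4
    intro s
    have h5 := h1 (0, s)
    simp only [dot, mul_zero, zero_add] at h5
    rw [mul_comm]
    exact h5

/-- The projector to an eigenspace. -/
noncomputable def eproj [NeZero m] (hA : F.IsAction m) (χ : ZMod m × ZMod m) :
    W.H (F.C m) →ₗ[W.K] W.H (F.C m) :=
  ((m : W.K) * m)⁻¹ • ∑ g, psi hA (-dot χ g) • (W.map (F.act m g)).toLinearMap

lemma eproj_apply [NeZero m] (χ : ZMod m × ZMod m) (y : W.H (F.C m)) :
    eproj hA χ y = ((m : W.K) * m)⁻¹ • ∑ g, psi hA (-dot χ g) • W.map (F.act m g) y := by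
  rw [eproj, LinearMap.smul_apply, LinearMap.sum_apply]
  rfl

lemma eproj_mem [NeZero m] (χ : ZMod m × ZMod m) : eproj hA χ ∈ KOp W (F.C m) (F.C m) 0 := by
  refine Submodule.smul_mem _ _ (Submodule.sum_mem _ (fun g _ => Submodule.smul_mem _ _ ?_))
  exact KOp.mapHom _

lemma eproj_gr [NeZero m] (χ : ZMod m × ZMod m) {i : ℕ} {y : W.H (F.C m)}
    (hy : y ∈ W.gr (F.C m) i) : eproj hA χ y ∈ W.gr (F.C m) i :=
  Mot.hom_deg0 (eproj_mem hA χ) hy

lemma isEig_eproj [NeZero m] (χ : ZMod m × ZMod m) (y : W.H (F.C m)) :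
    IsEig hA χ (eproj hA χ y) := by
  intro h
  rw [eproj_apply, map_smul, map_sum, smul_comm]
  congr 1
  rw [Finset.smul_sum]
  refine Fintype.sum_equiv (Equiv.addLeft h) _ _ (fun g => ?_)
  rw [map_smul, ← W.map_comp, ← hA.act_add, Equiv.coe_addLeft, smul_smul,
    ← AddChar.map_add_eq_mul, dot_add]
  congr 2
  ring

lemma sum_eproj [NeZero m] (y : W.H (F.C m)) : ∑ χ, eproj hA χ y = y := by
  have hm : ((m : W.K) * m) ≠ 0 := by
    have h1 : (m : W.K) ≠ 0 := by exact_mod_cast NeZero.ne m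
    exact mul_ne_zero h1 h1
  rw [Finset.sum_congr rfl (fun χ _ => eproj_apply hA χ y), ← Finset.smul_sum, Finset.sum_comm]
  have h1 : ∀ g : ZMod m × ZMod m, ∑ χ, psi hA (-dot χ g) • W.map (F.act m g) y =
      if g = 0 then ((m : W.K) * m) • y else 0 := by
    intro g
    rw [← Finset.sum_smul]
    have h2 : ∑ χ : ZMod m × ZMod m, psi hA (-dot χ g) =
        (∑ s, psi hA (s * -g.1)) * ∑ s, psi hA (s * -g.2) := by
      rw [Finset.sum_mul_sum, ← Finset.univ_product_univ, Finset.sum_product]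
      refine Finset.sum_congr rfl (fun s _ => Finset.sum_congr rfl (fun t _ => ?_))
      rw [← AddChar.map_add_eq_mul]
      congr 1
      simp only [dot]
      ring
    rw [h2, AddChar.sum_mulShift _ (psi_prim hA), AddChar.sum_mulShift _ (psi_prim hA), ZMod.card]
    by_cases hg : g = 0
    · rw [hg, if_pos rfl]
      simp only [Prod.fst_zero, Prod.snd_zero, neg_zero, if_true]
      rw [hA.act_zero, W.map_id]
    · rw [if_neg hg]
      have h3 : -g.1 ≠ 0 ∨ -g.2 ≠ 0 := by
        by_contra hcon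
        push Not at hcon
        exact hg (Prod.ext (neg_eq_zero.1 hcon.1) (neg_eq_zero.1 hcon.2))
      rcases h3 with h3 | h3
      · rw [if_neg h3, Nat.cast_zero, zero_mul, zero_smul]
      · rw [if_neg h3, Nat.cast_zero, mul_zero, zero_smul]
  rw [Finset.sum_congr rfl (fun g _ => h1 g), Finset.sum_ite_eq' Finset.univ (0 : ZMod m × ZMod m),
    if_pos (Finset.mem_univ _), smul_smul, inv_mul_cancel₀ hm, one_smul]

end Char

section Letter

variable {p : ℕ} (hF : F.IsFermat p)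

/-- The eigenclass of the opposite letter. -/
noncomputable def CurveData.eb (F : CurveData W) (x : Letter) : W.H (F.C x.m) := F.e x.bar

include hF in
lemma eb_gr {x : Letter} (hx : x.Good p) : F.eb x ∈ W.gr (F.C x.m) 1 :=
  ((hF.line x.bar hx.pos hx.coprime).eigen hx.bar).1

include hF in
lemma eb_ne {x : Letter} (hx : x.Good p) : F.eb x ≠ 0 :=
  (hF.line x.bar hx.pos hx.coprime).ne_zero hx.bar

include hF in
lemma eb_eig {x : Letter} (hx : x.Good p) [NeZero x.m] (hA : F.IsAction x.m) :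
    IsEig hA (-x.a, -x.b) (F.eb x) :=
  (isEig_iff hA (-x.a) (-x.b) _).2 ((hF.line x.bar hx.pos hx.coprime).eigen hx.bar).2

include hF in
lemma eproj_span {x : Letter} (hx : x.Good p) [NeZero x.m] (hA : F.IsAction x.m)
    {y : W.H (F.C x.m)} (hy : y ∈ W.gr (F.C x.m) 1) :
    ∃ c : W.K, eproj hA (x.a, x.b) y = c • F.e x :=
  (hF.line x hx.pos hx.coprime).span hx _ ⟨eproj_gr hA (x.a, x.b) hy,
    (isEig_iff hA x.a x.b _).1 (isEig_eproj hA (x.a, x.b) y)⟩

include hF in
lemma eb_mul_eproj {x : Letter} (hx : x.Good p) [NeZero x.m] (hA : F.IsAction x.m)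
    (y : W.H (F.C x.m)) :
    W.tr _ (F.eb x * y) = W.tr _ (F.eb x * eproj hA (x.a, x.b) y) := by
  conv_lhs => rw [← sum_eproj hA y]
  rw [Finset.mul_sum, map_sum, Finset.sum_eq_single ((x.a, x.b) : ZMod x.m × ZMod x.m)]
  · intro χ _ hχ
    by_contra hne
    have h1 := IsEig.orth hA (eb_eig hF hx hA) (isEig_eproj hA χ y) hne
    apply hχ
    rw [add_comm, add_eq_zero_iff_eq_neg] at h1
    rw [h1]
    exact Prod.ext (neg_neg x.a) (neg_neg x.b)
  · intro h
    exact absurd (Finset.mem_univ _) h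

include hF in
/-- The eigenclasses of opposite letters are not orthogonal. -/
lemma pair_ne {x : Letter} (hx : x.Good p) : W.tr _ (F.eb x * F.e x) ≠ 0 := by
  have : NeZero x.m := ⟨hx.pos.ne'⟩
  have hA := hF.action x.m hx.pos hx.coprime
  intro h0
  apply eb_ne hF hx
  apply W.nondeg
  intro y
  refine Pool.Agent.H914.gr_induction (W.isInternal (F.C x.m))
    (p := fun y => W.tr _ (F.eb x * y) = 0) ?_ ?_ y
  · intro i y hy
    by_cases hi : i = 1
    · rw [hi] at hy
      obtain ⟨c, hc⟩ := eproj_span hF hx hA hy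
      rw [eb_mul_eproj hF hx hA y, hc, mul_smul_comm, map_smul, h0, smul_zero]
    · exact W.tr_eq_zero (W.mul_mem (eb_gr hF hx) hy) (by rw [hA.dim]; omega)
  · intro y z hy hz
    rw [mul_add, map_add, hy, hz, add_zero]

/-- The projector to the line of the letter `x`. -/
noncomputable def lproj (F : CurveData W) (x : Letter) : W.H (F.C x.m) →ₗ[W.K] W.H (F.C x.m) :=
  rankOne W ((W.tr _ (F.eb x * F.e x))⁻¹ • F.eb x) (F.e x)

lemma lproj_apply (x : Letter) (y : W.H (F.C x.m)) :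
    lproj F x y = ((W.tr _ (F.eb x * F.e x))⁻¹ * W.tr _ (F.eb x * y)) • F.e x := by
  rw [lproj, rankOne_apply, smul_mul_assoc, map_smul, smul_eq_mul]

include hF in
lemma lproj_of_one {x : Letter} (hx : x.Good p) [NeZero x.m] (hA : F.IsAction x.m)
    {y : W.H (F.C x.m)} (hy : y ∈ W.gr (F.C x.m) 1) :
    lproj F x y = eproj hA (x.a, x.b) y := by
  obtain ⟨c, hc⟩ := eproj_span hF hx hA hy
  rw [lproj_apply, eb_mul_eproj hF hx hA y, hc, mul_smul_comm, map_smul, smul_eq_mul, mul_comm c,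
    inv_mul_cancel_left₀ (pair_ne hF hx)]

include hF in
lemma lproj_of_ne {x : Letter} (hx : x.Good p) {i : ℕ} (hi : i ≠ 1) {y : W.H (F.C x.m)}
    (hy : y ∈ W.gr (F.C x.m) i) : lproj F x y = 0 := by
  have hd := (hF.action x.m hx.pos hx.coprime).dim
  rw [lproj_apply, W.tr_eq_zero (W.mul_mem (eb_gr hF hx) hy) (by rw [hd]; omega), mul_zero,
    zero_smul]

/-- The projector to the first cohomology. -/
noncomputable def pi1 (W : WeilCohomology.{u, v} ops) (X : 𝒱.Obj) (P : X.Cycles) :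
    W.H X →ₗ[W.K] W.H X :=
  LinearMap.id - rankOne W (W.cl X P) (1 : W.H X) - rankOne W (1 : W.H X) (W.cl X P)

lemma one_mem_span (X : 𝒱.Obj) : (1 : W.H X) ∈ spanCycles W X 0 :=
  Submodule.subset_span ⟨0, rfl, X.V.fundCycle, X.V.fundCycle_mem, W.cl_fund X⟩

lemma cl_mem_span {X : 𝒱.Obj} {j : ℕ} {z : X.Cycles} (hz : X.IsCyc j z) :
    W.cl X z ∈ spanCycles W X j :=
  Submodule.subset_span ⟨j, rfl, z, hz, rfl⟩

lemma pi1_mem {X : 𝒱.Obj} (hd : X.dim = 1) {P : X.Cycles} (hP : X.IsCyc 1 P) :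
    pi1 W X P ∈ KOp W X X 0 := by
  refine Submodule.sub_mem _ (Submodule.sub_mem _ (KOp.id X) ?_) ?_
  · exact KOp.cast (rankOne_mem (cl_mem_span hP) (one_mem_span X)) (by rw [hd]; norm_num)
  · exact KOp.cast (rankOne_mem (one_mem_span X) (cl_mem_span hP)) (by rw [hd]; norm_num)

lemma pi1_gr {X : 𝒱.Obj} (hd : X.dim = 1) {P : X.Cycles} (hP : X.IsCyc 1 P)
    (hP1 : X.V.degCycle P = 1) (y : W.H X) : pi1 W X P y ∈ W.gr X 1 := by
  obtain ⟨y₁, hy₁, h⟩ := curve_decomp hd hP hP1 (W := W) (y := y)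
  have h1 : pi1 W X P y = y₁ := by
    rw [pi1, LinearMap.sub_apply, LinearMap.sub_apply, LinearMap.id_apply]
    conv_lhs => rw [sub_sub]
    rw [sub_eq_iff_eq_add, add_comm]
    exact h
  rw [h1]
  exact hy₁

lemma pi1_one {X : 𝒱.Obj} (hd : X.dim = 1) {P : X.Cycles} (hP : X.IsCyc 1 P) {y : W.H X}
    (hy : y ∈ W.gr X 1) : pi1 W X P y = y := by
  rw [pi1, LinearMap.sub_apply, LinearMap.sub_apply, LinearMap.id_apply, rankOne_apply,
    rankOne_apply, one_mul, W.tr_eq_zero (W.mul_mem (W.cl_mem hP) hy) (by rw [hd]; omega),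
    W.tr_eq_zero hy (by rw [hd]; omega), zero_smul, zero_smul, sub_zero, sub_zero]

lemma pi1_add (X : 𝒱.Obj) (P : X.Cycles) : rankOne W (W.cl X P) (1 : W.H X) +
    rankOne W (1 : W.H X) (W.cl X P) + pi1 W X P = LinearMap.id := by
  rw [pi1]
  abel

include hF in
lemma lproj_eq {x : Letter} (hx : x.Good p) [NeZero x.m] (hA : F.IsAction x.m)
    {P : (F.C x.m).Cycles} (hP : (F.C x.m).IsCyc 1 P) (hP1 : (F.C x.m).V.degCycle P = 1) :
    lproj F x = eproj hA (x.a, x.b) ∘ₗ pi1 W (F.C x.m) P := by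
  have hd := hA.dim
  apply LinearMap.ext
  intro y
  have h1 : lproj F x y = lproj F x (pi1 W (F.C x.m) P y) := by
    have h2 : y = rankOne W (W.cl _ P) (1 : W.H (F.C x.m)) y +
        rankOne W (1 : W.H (F.C x.m)) (W.cl _ P) y + pi1 W (F.C x.m) P y := by
      have h3 := congrArg (fun f => f y) (pi1_add (W := W) (F.C x.m) P)
      exact h3.symm
    conv_lhs => rw [h2]
    rw [map_add, map_add, rankOne_apply, rankOne_apply, map_smul, map_smul,
      lproj_of_ne hF hx (by norm_num) (W.one_mem _),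
      lproj_of_ne hF hx (show 2 * 1 ≠ 1 by norm_num) (W.cl_mem hP), smul_zero, smul_zero,
      zero_add, zero_add]
  rw [h1, lproj_of_one hF hx hA (pi1_gr hd hP hP1 y)]
  rfl

include hF in
lemma lproj_mem {x : Letter} (hx : x.Good p) : lproj F x ∈ KOp W (F.C x.m) (F.C x.m) 0 := by
  have : NeZero x.m := ⟨hx.pos.ne'⟩
  have hA := hF.action x.m hx.pos hx.coprime
  obtain ⟨P, hP, hP1⟩ := hA.point
  rw [lproj_eq hF hx hA hP hP1]
  exact KOp.cast (KOp.comp (eproj_mem _ _) (pi1_mem hA.dim hP)) (add_zero 0)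

include hF in
lemma lproj_idem {x : Letter} (hx : x.Good p) : lproj F x ∘ₗ lproj F x = lproj F x := by
  apply LinearMap.ext
  intro y
  rw [LinearMap.comp_apply]
  conv_lhs => rw [lproj_apply x y]
  rw [map_smul]
  have h1 : lproj F x (F.e x) = F.e x := by
    rw [lproj_apply, inv_mul_cancel₀ (pair_ne hF hx), one_smul]
  rw [h1, lproj_apply]

/-- The line of a letter. -/
noncomputable def letM (x : Letter) (hx : x.Good p) : Mot W where
  X := F.C x.m
  e := lproj F x
  mem := lproj_mem hF hx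
  idem := lproj_idem hF hx

/-- Two lines which are dual to each other. -/
lemma contr_of_lines {X : 𝒱.Obj} {i : ℕ} {u v : W.H X} (hu : u ∈ W.gr X i) {s s' : W.K}
    {E E' : W.H X →ₗ[W.K] W.H X} (hE : ∀ y, E y = (s * W.tr X (u * y)) • v)
    (hE' : ∀ y, E' y = (s' * W.tr X (v * y)) • u) (h1 : E ∈ KOp W X X 0) (h2 : E ∘ₗ E = E)
    (h1' : E' ∈ KOp W X X 0) (h2' : E' ∘ₗ E' = E') :
    (Mot.mk X E h1 h2).Contr (Mot.mk X E' h1' h2') := by
  obtain ⟨d, hd, hdE⟩ := mem_KOp_iff.1 h1'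
  refine ⟨(X.dim : ℤ) + 0, fun (f : W.H X →ₗ[W.K] W.K) (g : W.H X →ₗ[W.K] W.K) => ?_⟩
  refine ⟨((-1 : W.K) ^ i * (s * f v * g u)) • W.map (swap X X) d,
    Submodule.smul_mem _ _ (span_map _ hd), fun (a : W.H X) (b : W.H X) => ?_⟩
  have e1 := tr_corr_span hd a b
  have e2 : W.corr d b = (s' * W.tr X (v * b)) • u := by
    rw [hdE, hE']
  have e4 : W.tr X (a * u) = (-1 : W.K) ^ i * W.tr X (u * a) :=
    Pool.Agent.H281R3.HT.tr_swap hu a
  have e5 : (-1 : W.K) ^ i * (-1 : W.K) ^ i = 1 := by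
    rw [← mul_pow, neg_one_mul, neg_neg, one_pow]
  change W.tr (X.prod X) (((-1 : W.K) ^ i * (s * f v * g u)) • W.map (swap X X) d *
    (W.map (fst X X) a * W.map (snd X X) b)) = f (E a) * g (E' b)
  rw [smul_mul_assoc, map_smul, e1, e2, mul_smul_comm, map_smul, e4, hE, hE', map_smul, map_smul,
    smul_eq_mul, smul_eq_mul, smul_eq_mul, smul_eq_mul]
  calc (-1 : W.K) ^ i * (s * f v * g u) * (s' * W.tr X (v * b) *
        ((-1 : W.K) ^ i * W.tr X (u * a)))
      = ((-1 : W.K) ^ i * (-1 : W.K) ^ i) * (s * W.tr X (u * a) * f v *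
        (s' * W.tr X (v * b) * g u)) := by ring
    _ = s * W.tr X (u * a) * f v * (s' * W.tr X (v * b) * g u) := by rw [e5, one_mul]

lemma eb_bar (x : Letter) : HEq (F.eb x.bar) (F.e x) := by
  have h : ∀ y : Letter, y = x → HEq (F.e y) (F.e x) := by
    rintro y rfl
    rfl
  exact h x.bar.bar x.bar_bar

/-- The lines of opposite letters are dual. -/
lemma letM_contr {x : Letter} (hx : x.Good p) : (letM hF x hx).Contr (letM hF x.bar hx.bar) := by
  have hb : F.eb x.bar = F.e x := eq_of_heq (eb_bar x)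
  refine contr_of_lines (X := F.C x.m) (u := F.eb x) (v := F.e x)
    (s := (W.tr _ (F.eb x * F.e x))⁻¹) (s' := (W.tr _ (F.eb x.bar * F.e x.bar))⁻¹)
    (E := lproj F x) (E' := (lproj F x.bar : W.H (F.C x.m) →ₗ[W.K] W.H (F.C x.m)))
    (eb_gr hF hx) (fun y => lproj_apply x y) (fun y => ?_)
    (lproj_mem hF hx) (lproj_idem hF hx) (lproj_mem hF hx.bar) (lproj_idem hF hx.bar)
  have h1 := lproj_apply (F := F) x.bar y
  rw [hb] at h1 ⊢
  exact h1

end Letter

end Pool.Agent.L0h13.FC
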