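import Pool.Agent.L0h13.FC.Word

/-!
# The conjecture D for products of Fermat curves with other varieties
-/

open CategoryTheory AlgebraicGeometry TensorProduct

universe u v

namespace Pool.Agent.L0h13.FC

open Pool.Agent.H914 Pool.Agent.H914.VarClass Pool.Agent.H914.VarClass.Obj
  Pool.Agent.H914.WeilCohomology Pool.Agent.R908

variable {k : Type u} [Field k] {𝒱 : VarClass k} {ops : CycleOps 𝒱}
  {W : WeilCohomology.{u, v} ops} {F : CurveData W} {p : ℕ} (hF : F.IsFermat p)

/-- Direct factors of products of members of `𝒴`. -/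
def YF (W : WeilCohomology.{u, v} ops) (𝒴 : Set 𝒱.Obj) (y : Mon W) : Prop :=
  y = 1 ∨ ∃ B : Mot W, IsProductOf 𝒴 B.X ∧ y = B.m

lemma YF.mul {𝒴 : Set 𝒱.Obj} {y z : Mon W} (hy : YF W 𝒴 y) (hz : YF W 𝒴 z) :
    YF W 𝒴 (y * z) := by
  rcases hy with rfl | ⟨Y, hY, rfl⟩
  · rwa [one_mul]
  rcases hz with rfl | ⟨Z, hZ, rfl⟩
  · rw [mul_one]; exact Or.inr ⟨Y, hY, rfl⟩
  · exact Or.inr ⟨Y.tensor Z, IsProductOf.prod hY hZ, (Mot.m_tensor Y Z).symm⟩

lemma YF.mnum {𝒴 : Set 𝒱.Obj} (h𝒴 : ∀ Y, IsProductOf 𝒴 Y → HomEqNum W Y) {y : Mon W}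
    (hy : YF W 𝒴 y) : MNum y := by
  rcases hy with rfl | ⟨Y, hY, rfl⟩
  · exact mnum_one
  · refine mnum_m.2 (fun j x hx hn => ?_)
    have h1 : x = 0 := num_whole (h𝒴 _ hY) j x hx hn
    rw [h1, map_zero]

open scoped Classical in
/-- The class of the line of a letter. -/
noncomputable def lm (x : Letter) : Mon W := if h : x.Good p then (letM hF x h).m else 1

lemma lm_good {x : Letter} (h : x.Good p) : lm hF x = (letM hF x h).m := by
  rw [lm, dif_pos h]

lemma wordM_m {x : Letter} {l : List Letter} (h : ∀ y ∈ x :: l, y.Good p) :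
    (wordM hF x l h).m = ((x :: l).map (lm hF)).prod := by
  induction l generalizing x with
  | nil =>
    rw [List.map_singleton, List.prod_singleton, lm_good hF (h x List.mem_cons_self)]
    rfl
  | cons y l ih =>
    rw [wordM_cons, ih, ← lm_good hF (h x List.mem_cons_self)]
    simp only [List.map_cons, List.prod_cons]

lemma map_bar_bar (l : List Letter) : (l.map Letter.bar).map Letter.bar = l := by
  rw [List.map_map]
  conv_rhs => rw [← List.map_id l]
  exact List.map_congr_left (fun x _ => x.bar_bar)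

/-- The class `c` is not orthogonal to the algebraic classes, on `X` or on a product with a product
of members of `𝒴`. -/
def Linked (𝒴 : Set 𝒱.Obj) (X : 𝒱.Obj) (c : W.H X) : Prop :=
  (∃ j : ℤ, ∃ z ∈ spanCycles W X j, W.tr X (z * c) ≠ 0) ∨
    ∃ Y, IsProductOf 𝒴 Y ∧ ∃ j : ℤ, ∃ z ∈ spanCycles W (X.prod Y) j, ∃ y : W.H Y,
      W.tr _ (z * (W.map (fst X Y) c * W.map (snd X Y) y)) ≠ 0

/-- A power of a linked word, and of its opposite, are algebraic. -/
def KeyProp (F : CurveData W) (p : ℕ) (𝒴 : Set 𝒱.Obj) : Prop :=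
  ∀ x l, (∀ y ∈ x :: l, y.Good p) → Linked 𝒴 (F.wordVar x l) (F.wordCls x l) →
    ∃ N, 0 < N ∧ F.IsAlgebraic (power N (x :: l)) ∧
      F.IsAlgebraic (power N ((x :: l).map Letter.bar))

include hF in
lemma not_linked {x : Letter} {l : List Letter} (h : ∀ y ∈ x :: l, y.Good p) {𝒴 : Set 𝒱.Obj}
    (hT : ¬ Linked 𝒴 (F.wordVar x l) (barCls F x l)) : (wordM hF x l h).Num := by
  suffices key : ∀ j : ℤ, ∀ v ∈ spanCycles W (F.wordVar x l) j, wordE F x l v = 0 from
    fun j v hv _ => key j v hv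
  intro j v hv
  obtain ⟨κ, hκ, hE⟩ := wordE_eq hF h
  rw [hE]
  have h2 : W.tr _ (barCls F x l * v) = 0 := by
    by_contra hne
    apply hT
    rw [← span_comm hv] at hne
    exact Or.inl ⟨j, v, hv, hne⟩
  rw [h2, mul_zero, zero_smul]

include hF in
lemma not_linked_tensor {x : Letter} {l : List Letter} (h : ∀ y ∈ x :: l, y.Good p)
    {𝒴 : Set 𝒱.Obj} (hT : ¬ Linked 𝒴 (F.wordVar x l) (barCls F x l)) {B : Mot W}
    (hB : IsProductOf 𝒴 B.X) : ((wordM hF x l h).tensor B).Num := by
  suffices key : ∀ j : ℤ, ∀ v ∈ spanCycles W ((F.wordVar x l).prod B.X) j,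
      extHom W (wordE F x l) B.e v = 0 from fun j v hv _ => key j v hv
  intro j v hv
  obtain ⟨κ, hκ, hE⟩ := wordE_eq hF h
  have key : extHom W (wordE F x l) B.e =
      LinearMap.mulLeft W.K (W.map (fst (F.wordVar x l) B.X) (F.wordCls x l)) ∘ₗ
      (W.map (snd (F.wordVar x l) B.X)).toLinearMap ∘ₗ B.e ∘ₗ W.push (snd (F.wordVar x l) B.X) ∘ₗ
        LinearMap.mulLeft W.K (W.map (fst (F.wordVar x l) B.X) (κ • barCls F x l)) := by
    apply ext_kunneth_lin
    intro a b
    rw [extHom_tmul, hE, LinearMap.comp_apply, LinearMap.comp_apply, LinearMap.comp_apply,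
      LinearMap.comp_apply, LinearMap.mulLeft_apply, LinearMap.mulLeft_apply, tr_fst, map_smul,
      AlgHom.toLinearMap_apply, map_smul, map_smul, mul_smul_comm, smul_mul_assoc, smul_mul_assoc,
      map_smul, smul_eq_mul]
  have h2 : W.push (snd (F.wordVar x l) B.X)
      (W.map (fst (F.wordVar x l) B.X) (κ • barCls F x l) * v) = 0 := by
    apply W.nondeg
    intro y
    rw [W.tr_push, map_smul, smul_mul_assoc, smul_mul_assoc, map_smul, ← span_comm hv, mul_assoc]
    have h3 : W.tr _ (v * (W.map (fst (F.wordVar x l) B.X) (barCls F x l) *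
        W.map (snd (F.wordVar x l) B.X) y)) = 0 := by
      by_contra hne
      exact hT (Or.inr ⟨B.X, hB, j, v, hv, y, hne⟩)
    rw [h3, smul_zero]
  rw [key, LinearMap.comp_apply, LinearMap.comp_apply, LinearMap.comp_apply, LinearMap.comp_apply,
    LinearMap.mulLeft_apply, LinearMap.mulLeft_apply, h2, map_zero, map_zero, mul_zero]

lemma map_lm_power (M : ℕ) (w : List Letter) :
    ((power M w).map (lm hF)).prod = ((w.map (lm hF)).prod) ^ M := by
  induction M with
  | zero => rfl
  | succ M ih => rw [power_succ, List.map_append, List.prod_append, ih, pow_succ']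

include hF in
/-- The powers of the lines of opposite words are isomorphic. -/
lemma pow_eq {x : Letter} {l : List Letter} (h : ∀ y ∈ x :: l, y.Good p) {N : ℕ} (hN : 0 < N)
    (h1 : F.IsAlgebraic (power N (x :: l)))
    (h2 : F.IsAlgebraic (power N ((x :: l).map Letter.bar))) :
    ((x :: l).map (lm hF)).prod ^ N = (((x :: l).map Letter.bar).map (lm hF)).prod ^ N := by
  obtain ⟨M, rfl⟩ : ∃ M, N = M + 1 := ⟨N - 1, by omega⟩
  have hg : ∀ y ∈ x :: (l ++ power M (x :: l)), y.Good p := by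
    intro y hy
    rcases List.mem_append.1 (show y ∈ (x :: l) ++ power M (x :: l) from hy) with h' | h'
    · exact h y h'
    · exact h y (mem_power h')
  have hgb := good_bar hg
  have e1 : F.IsAlgebraic (x :: (l ++ power M (x :: l))) := by
    rw [power_succ] at h1
    exact h1
  have e2 : F.IsAlgebraic (x.bar :: (l ++ power M (x :: l)).map Letter.bar) := by
    rw [← map_power, power_succ] at h2
    exact h2
  have a1 := algLine_word hF hg e1 e2
  have a2 := algLine_word hF hgb e2 (by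
    rw [Letter.bar_bar, map_bar_bar]
    exact e1)
  have h3 := a1.eqv a2
  have h4 : (wordM hF x (l ++ power M (x :: l)) hg).m =
      (wordM hF x.bar ((l ++ power M (x :: l)).map Letter.bar) hgb).m := by
    change ((wordM hF x (l ++ power M (x :: l)) hg).cls : WithOne (Cls W)) = _
    rw [Mot.cls_eq.2 h3]
    rfl
  rw [wordM_m, wordM_m] at h4
  have h5 : x :: (l ++ power M (x :: l)) = power (M + 1) (x :: l) := by
    rw [power_succ]
    rfl
  have h6 : x.bar :: (l ++ power M (x :: l)).map Letter.bar =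
      power (M + 1) ((x :: l).map Letter.bar) := by
    rw [← map_power, power_succ]
    rfl
  rw [h5, h6, map_lm_power, map_lm_power] at h4
  exact h4

lemma YF.pow {𝒴 : Set 𝒱.Obj} {y : Mon W} (hy : YF W 𝒴 y) (n : ℕ) : YF W 𝒴 (y ^ n) := by
  induction n with
  | zero => exact Or.inl (pow_zero y)
  | succ n ih => rw [pow_succ]; exact ih.mul hy

include hF in
/-- There are no numerically trivial classes on the product of the line of a word and a direct
factor of a product of members of `𝒴`. -/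
theorem mnum_word {𝒴 : Set 𝒱.Obj} (hK : KeyProp F p 𝒴)
    (h𝒴 : ∀ Y, IsProductOf 𝒴 Y → HomEqNum W Y) {l : List Letter} (h : ∀ y ∈ l, y.Good p)
    {y : Mon W} (hy : YF W 𝒴 y) : MNum ((l.map (lm hF)).prod * y) := by
  cases l with
  | nil =>
    rw [List.map_nil, List.prod_nil, one_mul]
    exact hy.mnum h𝒴
  | cons x l =>
    by_cases hT : Linked 𝒴 (F.wordVar x l) (barCls F x l)
    · have hk : ∃ N, 0 < N ∧ F.IsAlgebraic (power N (x.bar :: l.map Letter.bar)) ∧
          F.IsAlgebraic (power N ((x.bar :: l.map Letter.bar).map Letter.bar)) := by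
        apply hK _ _ (good_bar h)
        have h1 : (⟨F.wordVar x.bar (l.map Letter.bar), F.wordCls x.bar (l.map Letter.bar)⟩ :
          (X : 𝒱.Obj) × W.H X) = ⟨F.wordVar x l, barCls F x l⟩ := sig_bar x l
        have h2 : (fun s : (X : 𝒱.Obj) × W.H X => Linked 𝒴 s.1 s.2)
          ⟨F.wordVar x l, barCls F x l⟩ := hT
        rw [← h1] at h2
        exact h2
      obtain ⟨N, hN, hk1, hk2⟩ := hk
      rw [List.map_cons, Letter.bar_bar, map_bar_bar] at hk2
      have h1 := mnum_of_pow (W := W)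
        ((x :: l).attach.map (fun y => (letM hF y.1 (h y.1 y.2), letM hF y.1.bar (h y.1 y.2).bar)))
        (by
          intro z hz
          obtain ⟨y, -, rfl⟩ := List.mem_map.1 hz
          exact letM_contr hF (h y.1 y.2)) hN
      have e1 : ((x :: l).attach.map (fun y => (letM hF y.1 (h y.1 y.2),
          letM hF y.1.bar (h y.1 y.2).bar))).map (fun z => z.1.m) = (x :: l).map (lm hF) := by
        rw [List.map_map]
        conv_rhs => rw [← List.attach_map_subtype_val (x :: l), List.map_map]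
        apply List.map_congr_left
        intro y _
        exact (lm_good hF (h y.1 y.2)).symm
      have e2 : ((x :: l).attach.map (fun y => (letM hF y.1 (h y.1 y.2),
          letM hF y.1.bar (h y.1 y.2).bar))).map (fun z => z.2.m) =
          ((x :: l).map Letter.bar).map (lm hF) := by
        rw [List.map_map, List.map_map]
        conv_rhs => rw [← List.attach_map_subtype_val (x :: l), List.map_map]
        apply List.map_congr_left
        intro y _
        exact (lm_good hF (h y.1 y.2).bar).symm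
      rw [e1, e2] at h1
      exact h1 (pow_eq hF h hN hk2 hk1) y ((hy.pow _).mnum h𝒴)
    · rw [← wordM_m hF h]
      rcases hy with rfl | ⟨B, hB, rfl⟩
      · rw [mul_one, mnum_m]
        exact not_linked hF h hT
      · rw [← Mot.m_tensor, mnum_m]
        exact not_linked_tensor hF h hT hB

/-- A product of direct factors with algebraic classes, of lines of letters and of a direct factor
of a product of members of `𝒴`. -/
def FCls (𝒴 : Set 𝒱.Obj) (B : Mot W) : Prop :=
  ∃ (T : List (Mot W)) (l : List Letter) (y : Mon W), (∀ t ∈ T, t.Alg) ∧ (∀ x ∈ l, x.Good p) ∧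
    YF W 𝒴 y ∧ B.m = (T.map Mot.m).prod * ((l.map (lm hF)).prod * y)

lemma FCls.tensor {𝒴 : Set 𝒱.Obj} (A B : Mot W) (hA : FCls hF 𝒴 A) (hB : FCls hF 𝒴 B) :
    FCls hF 𝒴 (A.tensor B) := by
  obtain ⟨T, l, y, h1, h2, h3, h4⟩ := hA
  obtain ⟨T', l', y', h1', h2', h3', h4'⟩ := hB
  refine ⟨T ++ T', l ++ l', y * y', ?_, ?_, h3.mul h3', ?_⟩
  · intro t ht
    rcases List.mem_append.1 ht with h | h
    · exact h1 t h
    · exact h1' t h
  · intro t ht
    rcases List.mem_append.1 ht with h | h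
    · exact h2 t h
    · exact h2' t h
  · rw [Mot.m_tensor, h4, h4', List.map_append, List.map_append, List.prod_append,
      List.prod_append]
    simp only [mul_assoc, mul_left_comm]

lemma FCls.num {𝒴 : Set 𝒱.Obj} (hK : KeyProp F p 𝒴)
    (h𝒴 : ∀ Y, IsProductOf 𝒴 Y → HomEqNum W Y) (B : Mot W) (hB : FCls hF 𝒴 B) : B.Num := by
  obtain ⟨T, l, y, h1, h2, h3, h4⟩ := hB
  rw [← mnum_m, h4]
  clear h4
  have h5 := mnum_word hF hK h𝒴 h2 h3
  induction T with
  | nil => rw [List.map_nil, List.prod_nil, one_mul]; exact h5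
  | cons t T ih =>
    rw [List.map_cons, List.prod_cons, mul_assoc]
    exact mnum_alg (h1 t List.mem_cons_self) (ih (fun t ht => h1 t (List.mem_cons_of_mem _ ht)))

lemma FCls.alg {𝒴 : Set 𝒱.Obj} {B : Mot W} (h : B.Alg) : FCls hF 𝒴 B := by
  refine ⟨[B], [], 1, ?_, ?_, Or.inl rfl, ?_⟩
  · intro t ht
    rw [List.mem_singleton] at ht
    rw [ht]
    exact h
  · intro t ht; exact absurd ht List.not_mem_nil
  · rw [List.map_singleton, List.prod_singleton, List.map_nil, List.prod_nil, one_mul, mul_one]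

lemma FCls.letter {𝒴 : Set 𝒱.Obj} {x : Letter} (h : x.Good p) : FCls hF 𝒴 (letM hF x h) := by
  refine ⟨[], [x], 1, ?_, ?_, Or.inl rfl, ?_⟩
  · intro t ht; exact absurd ht List.not_mem_nil
  · intro t ht
    rw [List.mem_singleton] at ht
    rw [ht]
    exact h
  · rw [List.map_singleton, List.prod_singleton, List.map_nil, List.prod_nil, one_mul, mul_one,
      lm_good hF h]

lemma FCls.other {𝒴 : Set 𝒱.Obj} {Y : 𝒱.Obj} (hY : Y ∈ 𝒴) : FCls hF 𝒴 (whole W Y) := by
  refine ⟨[], [], (whole W Y).m, ?_, ?_, Or.inr ⟨whole W Y, IsProductOf.base hY, rfl⟩, ?_⟩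
  · intro t ht; exact absurd ht List.not_mem_nil
  · intro t ht; exact absurd ht List.not_mem_nil
  · rw [List.map_nil, List.prod_nil, List.map_nil, List.prod_nil, one_mul, one_mul]

lemma rankOne_idem {X : 𝒱.Obj} {c c' : W.H X} (h : W.tr X (c * c') = 1) :
    rankOne W c c' ∘ₗ rankOne W c c' = rankOne W c c' := by
  apply LinearMap.ext
  intro x
  rw [LinearMap.comp_apply, rankOne_apply, rankOne_apply, mul_smul_comm, map_smul, h, smul_eq_mul,
    mul_one]

include hF in
/-- The identity of a Fermat curve. -/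
lemma id_curve {𝒴 : Set 𝒱.Obj} {m : ℕ} (hm : 0 < m) (hpm : p.Coprime m) :
    (LinearMap.id : W.H (F.C m) →ₗ[W.K] W.H (F.C m)) ∈
      RetOp W (FCls hF 𝒴) (F.C m) (F.C m) := by
  have : NeZero m := ⟨hm.ne'⟩
  have hA := hF.action m hm hpm
  obtain ⟨P, hP, hP1⟩ := hA.point
  have hPt : W.tr _ (W.cl _ P) = 1 := by
    rw [W.tr_cl (by rw [hA.dim]; exact hP), hP1, Rat.cast_one]
  rw [← pi1_add (F.C m) P]
  refine Submodule.add_mem _ (Submodule.add_mem _ ?_ ?_) ?_
  · have h1 : W.tr _ (W.cl _ P * 1) = 1 := by rw [mul_one, hPt]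
    have hmem : rankOne W (W.cl _ P) (1 : W.H (F.C m)) ∈ KOp W (F.C m) (F.C m) 0 :=
      KOp.cast (rankOne_mem (cl_mem_span hP) (one_mem_span _)) (by rw [hA.dim]; norm_num)
    exact RetOp.self (B := Mot.mk (F.C m) (rankOne W (W.cl _ P) 1) hmem (rankOne_idem h1))
      (FCls.alg hF (AlgLine.alg ⟨_, _, W.cl _ P, 1, cl_mem_span hP, one_mem_span _, h1,
        fun x => rfl⟩))
  · have h1 : W.tr _ (1 * W.cl _ P) = 1 := by rw [one_mul, hPt]
    have hmem : rankOne W (1 : W.H (F.C m)) (W.cl _ P) ∈ KOp W (F.C m) (F.C m) 0 :=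
      KOp.cast (rankOne_mem (one_mem_span _) (cl_mem_span hP)) (by rw [hA.dim]; norm_num)
    exact RetOp.self (B := Mot.mk (F.C m) (rankOne W 1 (W.cl _ P)) hmem (rankOne_idem h1))
      (FCls.alg hF (AlgLine.alg ⟨_, _, 1, W.cl _ P, one_mem_span _, cl_mem_span hP, h1,
        fun x => rfl⟩))
  · have h1 : pi1 W (F.C m) P = ∑ χ, eproj hA χ ∘ₗ pi1 W (F.C m) P := by
      apply LinearMap.ext
      intro y
      rw [LinearMap.sum_apply]
      exact (sum_eproj hA _).symm
    rw [h1]
    refine Submodule.sum_mem _ (fun χ _ => ?_)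
    obtain ⟨a, b⟩ := χ
    by_cases hx : Letter.Good p ⟨m, a, b⟩
    · have h2 : lproj F ⟨m, a, b⟩ = eproj hA (a, b) ∘ₗ pi1 W (F.C m) P :=
        lproj_eq hF hx hA hP hP1
      rw [← h2]
      exact RetOp.self (B := letM hF ⟨m, a, b⟩ hx) (FCls.letter hF hx)
    · have h2 : eproj hA (a, b) ∘ₗ pi1 W (F.C m) P = 0 := by
        apply LinearMap.ext
        intro y
        exact (hF.line ⟨m, a, b⟩ hm hpm).bot hx _ ⟨eproj_gr hA (a, b) (pi1_gr hA.dim hP hP1 y),
          (isEig_iff hA a b _).1 (isEig_eproj hA (a, b) _)⟩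
      rw [h2]
      exact Submodule.zero_mem _

include hF in
/-- **The conjecture D for products of Fermat curves and members of `𝒴`.** -/
theorem homEqNum_fermat {𝒴 : Set 𝒱.Obj} (hK : KeyProp F p 𝒴)
    (h𝒴 : ∀ Y, IsProductOf 𝒴 Y → HomEqNum W Y) {Z : 𝒱.Obj}
    (hZ : IsProductOf (F.curves p ∪ 𝒴) Z) : HomEqNum W Z := by
  refine RetOp.homEqNum (FCls.num hF hK h𝒴) ?_
  induction hZ with
  | base hX =>
    rcases hX with ⟨m, hm, hpm, rfl⟩ | hX
    · exact id_curve hF hm hpm
    · exact RetOp.self (B := whole W _) (FCls.other hF hX)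
  | prod _ _ h1 h2 =>
    rw [← extHom_id]
    exact RetOp.ext (FCls.tensor hF) h1 h2

/-- The theorems of Weil and Stickelberger and of Tate, Shioda, Katsura and Aoki give the key
property. -/
theorem key_fermat (hp : p.Prime) (hS : F.WeilStickelberger p) (hA : F.TateShiodaKatsuraAoki p)
    {𝒴 : Set 𝒱.Obj} (hI : F.Independent p 𝒴) : KeyProp F p 𝒴 := by
  intro x l h hT
  have hw : IsTateWord p (x :: l) := by
    rcases hT with ⟨j, z, hz, hne⟩ | ⟨Y, hY, j, z, hz, y, hne⟩
    · exact hS x l h ⟨j, z, hz, hne⟩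
    · exact hI x l h Y hY y ⟨j, z, hz, hne⟩
  have key : ∀ w : List Letter, w ≠ [] → (∀ y ∈ w, y.Good p) → IsTateWord p w →
      F.IsAlgebraic (power 2 w) := by
    intro w hne hg hw
    apply hA
    · rw [power_two]
      intro h0
      exact hne (List.append_eq_nil_iff.1 h0).1
    · intro y hy
      exact hg y (mem_power hy)
    · rw [power_two]
      exact double_generated hp hne hg hw
  refine ⟨2, two_pos, key _ (List.cons_ne_nil x l) h hw, key _ ?_ (good_bar h) ?_⟩
  · rw [List.map_cons]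
    exact List.cons_ne_nil _ _
  · exact isTateWord_bar h hw

include hF in
/-- The criterion for products of Fermat curves. -/
theorem key_criterion (hC : ∀ w, (∀ y ∈ w, y.Good p) → F.IsAlgebraic w →
    ∃ N, 0 < N ∧ F.IsAlgebraic (power N (w.map Letter.bar))) : KeyProp F p ∅ := by
  intro x l h hT
  have hT' : ∃ j : ℤ, ∃ z ∈ spanCycles W (F.wordVar x l) j,
      W.tr _ (z * F.wordCls x l) ≠ 0 := by
    rcases hT with h1 | ⟨Y, hY, -⟩
    · exact h1
    · exfalso
      induction hY with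
      | base h => exact h
      | prod _ _ h1 _ => exact h1
  obtain ⟨j, z, hz, hne⟩ := hT'
  have h1 : F.IsAlgebraic (x.bar :: l.map Letter.bar) := by
    have e1 : (⟨F.wordVar x l, F.wordCls x l⟩ : (X : 𝒱.Obj) × W.H X) =
        ⟨F.wordVar x.bar (l.map Letter.bar), barCls F x.bar (l.map Letter.bar)⟩ := by
      rw [← sig_bar, map_bar_bar, Letter.bar_bar]
    have e2 : (fun s : (X : 𝒱.Obj) × W.H X => ∃ j : ℤ, ∃ z ∈ spanCycles W s.1 j,
        W.tr _ (s.2 * z) ≠ 0) ⟨F.wordVar x l, F.wordCls x l⟩ :=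
      ⟨j, z, hz, by rwa [← span_comm hz]⟩
    rw [e1] at e2
    obtain ⟨i, z', hz', hne'⟩ := e2
    exact isAlgebraic_of_pair hF (good_bar h) hz' hne'
  obtain ⟨N, hN, h2⟩ := hC _ (good_bar h) h1
  rw [List.map_cons, Letter.bar_bar, map_bar_bar] at h2
  refine ⟨N, hN, h2, ?_⟩
  have h3 := IsAlgebraic.power h1 N
  exact h3

lemma wordCls_ne {x : Letter} {l : List Letter} (hF : F.IsFermat p)
    (h : ∀ y ∈ x :: l, y.Good p) : F.wordCls x l ≠ 0 := by
  intro h0
  apply bar_pair hF h
  rw [h0, mul_zero, map_zero]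

lemma wordVar_product {x : Letter} {l : List Letter} (h : ∀ y ∈ x :: l, y.Good p) :
    IsProductOf (F.curves p) (F.wordVar x l) := by
  induction l generalizing x with
  | nil =>
    have hx := h x List.mem_cons_self
    exact IsProductOf.base ⟨x.m, hx.pos, hx.coprime, rfl⟩
  | cons y l ih =>
    have hx := h x List.mem_cons_self
    exact IsProductOf.prod (IsProductOf.base ⟨x.m, hx.pos, hx.coprime, rfl⟩)
      (ih (fun z hz => h z (List.mem_cons_of_mem _ hz)))

/-- The criterion is necessary. -/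
theorem criterion_of_homEqNum (hF : F.IsFermat p)
    (hD : ∀ Z, IsProductOf (F.curves p) Z → HomEqNum W Z) (w : List Letter)
    (h : ∀ y ∈ w, y.Good p) (hw : F.IsAlgebraic w) : F.IsAlgebraic (w.map Letter.bar) := by
  cases w with
  | nil => exact trivial
  | cons x l =>
    obtain ⟨j, hj⟩ := hw
    have h1 : ∃ i : ℤ, ∃ z ∈ spanCycles W (F.wordVar x l) i,
        W.tr _ (F.wordCls x l * z) ≠ 0 := by
      by_contra hcon
      push Not at hcon
      apply wordCls_ne hF h
      apply num_whole (hD _ (wordVar_product h)) j _ hj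
      intro i z hz
      exact hcon i z hz
    have e1 : (⟨F.wordVar x l, F.wordCls x l⟩ : (X : 𝒱.Obj) × W.H X) =
        ⟨F.wordVar x.bar (l.map Letter.bar), barCls F x.bar (l.map Letter.bar)⟩ := by
      rw [← sig_bar, map_bar_bar, Letter.bar_bar]
    have e2 : (fun s : (X : 𝒱.Obj) × W.H X => ∃ j : ℤ, ∃ z ∈ spanCycles W s.1 j,
        W.tr _ (s.2 * z) ≠ 0) ⟨F.wordVar x l, F.wordCls x l⟩ := h1
    rw [e1] at e2
    obtain ⟨i, z', hz', hne'⟩ := e2
    exact isAlgebraic_of_pair hF (good_bar h) hz' hne'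

/-- The conjectures D and B for all varieties dominated by products. -/
theorem dominated {W : WeilCohomology.{u, v} ops} {R : Set 𝒱.Obj}
    (key : ∀ Z, IsProductOf R Z → HomEqNum W Z) (Z : 𝒱.Obj) (hZ : IsProductOf R Z) (V : 𝒱.Obj)
    (hV : Dominates W Z V) : HomEqNum W V ∧
      ∀ D, V.IsCyc 1 D → HardLefschetz W V D → LefschetzB W V D := by
  have key' : ∀ Z, IsProductOf R Z → ∀ V, Dominates W Z V → HomEqNum W V :=
    fun Z hZ V hV => (key Z hZ).image hV
  refine ⟨key' Z hZ V hV, fun D hD hHL => ?_⟩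
  have h3 := key' (Z.prod Z) (IsProductOf.prod hZ hZ) (V.prod V)
    (Pool.Agent.H281R3.HT.dominates_prod hV hV)
  apply Pool.Agent.H447.lefschetzB_of_homEqNumIn hD hHL
  intro z hz hnum
  by_cases hd : V.dim + 1 ≤ (V.prod V).dim
  · exact h3 (V.dim + 1) hd z hz hnum
  · have h4 := W.cl_mem hz
    rw [W.gr_eq_bot _ _ (by omega), Submodule.mem_bot] at h4
    exact h4

end Pool.Agent.L0h13.FC
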