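import Pool.Agent.L0h13.FC.Curve
import Pool.Agent.L0h13.FC.Comb

/-!
# The lines of words on products of Fermat curves
-/

open CategoryTheory AlgebraicGeometry TensorProduct

universe u v

namespace Pool.Agent.L0h13.FC

open Pool.Agent.H914 Pool.Agent.H914.VarClass Pool.Agent.H914.VarClass.Obj
  Pool.Agent.H914.WeilCohomology Pool.Agent.R908

variable {k : Type u} [Field k] {𝒱 : VarClass k} {ops : CycleOps 𝒱}
  {W : WeilCohomology.{u, v} ops} {F : CurveData W} {p : ℕ}

/-- The external product of the opposite eigenclasses. -/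
noncomputable def barCls (F : CurveData W) :
    ∀ (x : Letter) (l : List Letter), W.H (F.wordVar x l)
  | x, [] => F.eb x
  | x, y :: l => W.map (fst (F.C x.m) (F.wordVar y l)) (F.eb x) *
      W.map (snd (F.C x.m) (F.wordVar y l)) (barCls F y l)

/-- The projector to the line of a word. -/
noncomputable def wordE (F : CurveData W) : ∀ (x : Letter) (l : List Letter),
    W.H (F.wordVar x l) →ₗ[W.K] W.H (F.wordVar x l)
  | x, [] => lproj F x
  | x, y :: l => extHom W (lproj F x) (wordE F y l)

/-- The variety and the class of the opposite word. -/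
lemma sig_bar (x : Letter) (l : List Letter) :
    (⟨F.wordVar x.bar (l.map Letter.bar), F.wordCls x.bar (l.map Letter.bar)⟩ :
      (X : 𝒱.Obj) × W.H X) = ⟨F.wordVar x l, barCls F x l⟩ := by
  induction l generalizing x with
  | nil => rfl
  | cons y l ih =>
    have h1 := congrArg (fun s : (X : 𝒱.Obj) × W.H X =>
      (⟨(F.C x.m).prod s.1, W.map (fst (F.C x.m) s.1) (F.eb x) *
        W.map (snd (F.C x.m) s.1) s.2⟩ : (X : 𝒱.Obj) × W.H X)) (ih y)
    exact h1

/-- Transfer of a property from the opposite word. -/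
lemma of_bar (Q : ∀ X : 𝒱.Obj, W.H X → Prop) {x : Letter} {l : List Letter}
    (h : Q (F.wordVar x.bar (l.map Letter.bar)) (F.wordCls x.bar (l.map Letter.bar))) :
    Q (F.wordVar x l) (barCls F x l) := by
  have h1 : (fun s : (X : 𝒱.Obj) × W.H X => Q s.1 s.2)
      ⟨F.wordVar x.bar (l.map Letter.bar), F.wordCls x.bar (l.map Letter.bar)⟩ := h
  rw [sig_bar] at h1
  exact h1

variable (hF : F.IsFermat p)

include hF in
lemma wordCls_gr {x : Letter} {l : List Letter} (h : ∀ y ∈ x :: l, y.Good p) :
    F.wordCls x l ∈ W.gr (F.wordVar x l) (l.length + 1) := by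
  induction l generalizing x with
  | nil =>
    have hx := h x List.mem_cons_self
    exact ((hF.line x hx.pos hx.coprime).eigen hx).1
  | cons y l ih =>
    have hx := h x List.mem_cons_self
    have h1 := ((hF.line x hx.pos hx.coprime).eigen hx).1
    have h2 := ih (x := y) (fun z hz => h z (List.mem_cons_of_mem _ hz))
    have h3 := W.mul_mem (W.map_mem (fst (F.C x.m) (F.wordVar y l)) h1)
      (W.map_mem (snd (F.C x.m) (F.wordVar y l)) h2)
    have h4 : 1 + (l.length + 1) = (y :: l).length + 1 := by
      rw [List.length_cons]; omega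
    rw [h4] at h3
    exact h3

lemma good_bar {x : Letter} {l : List Letter} (h : ∀ y ∈ x :: l, y.Good p) :
    ∀ y ∈ x.bar :: l.map Letter.bar, y.Good p := by
  intro y hy
  rcases List.mem_cons.1 hy with rfl | hy
  · exact (h x List.mem_cons_self).bar
  · obtain ⟨z, hz, rfl⟩ := List.mem_map.1 hy
    exact (h z (List.mem_cons_of_mem _ hz)).bar

include hF in
lemma barCls_gr {x : Letter} {l : List Letter} (h : ∀ y ∈ x :: l, y.Good p) :
    barCls F x l ∈ W.gr (F.wordVar x l) (l.length + 1) := by
  refine of_bar (F := F) (fun X c => c ∈ W.gr X (l.length + 1)) ?_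
  have h1 := wordCls_gr hF (good_bar h)
  rw [List.length_map] at h1
  exact h1

/-- The trace of a product of external products, one factor being of degree `i`. -/
lemma tr_ext_mul {X Y : 𝒱.Obj} {i j : ℕ} {a a' : W.H X} {b b' : W.H Y} (hb : b ∈ W.gr Y i)
    (ha' : a' ∈ W.gr X j) : W.tr (X.prod Y) ((W.map (fst X Y) a * W.map (snd X Y) b) *
      (W.map (fst X Y) a' * W.map (snd X Y) b')) =
        (-1 : W.K) ^ (i * j) * (W.tr X (a * a') * W.tr Y (b * b')) := by
  have h1 : (W.map (fst X Y) a * W.map (snd X Y) b) *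
      (W.map (fst X Y) a' * W.map (snd X Y) b') =
      (-1 : W.K) ^ (i * j) • (W.map (fst X Y) (a * a') * W.map (snd X Y) (b * b')) := by
    rw [mul_assoc, ← mul_assoc (W.map (snd X Y) b),
      W.comm (W.map_mem (snd X Y) hb) (W.map_mem (fst X Y) ha'), smul_mul_assoc, mul_smul_comm,
      map_mul (W.map (fst X Y)), map_mul (W.map (snd X Y))]
    simp only [mul_assoc]
  rw [h1, map_smul, W.tr_prod, smul_eq_mul]

/-- The external product of two operators of rank one. -/
lemma ext_line {X Y : 𝒱.Obj} {i j : ℕ} {u v : W.H X} {u' v' : W.H Y} (hu : u ∈ W.gr X i)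
    (hu' : u' ∈ W.gr Y j) {s s' : W.K} {E : W.H X →ₗ[W.K] W.H X} {E' : W.H Y →ₗ[W.K] W.H Y}
    (hE : ∀ y, E y = (s * W.tr X (u * y)) • v) (hE' : ∀ y, E' y = (s' * W.tr Y (u' * y)) • v')
    (w : W.H (X.prod Y)) : extHom W E E' w = ((-1 : W.K) ^ (j * i) * (s * s') *
      W.tr (X.prod Y) ((W.map (fst X Y) u * W.map (snd X Y) u') * w)) •
        (W.map (fst X Y) v * W.map (snd X Y) v') := by
  refine W.kunneth_induction (p := fun w => extHom W E E' w = ((-1 : W.K) ^ (j * i) * (s * s') *
      W.tr (X.prod Y) ((W.map (fst X Y) u * W.map (snd X Y) u') * w)) •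
        (W.map (fst X Y) v * W.map (snd X Y) v')) ?_ ?_ w
  · intro a b ha hb
    rw [map_add, ha, hb, mul_add, map_add, mul_add, add_smul]
  · intro l l' a ha b _
    rw [extHom_tmul, tr_ext_mul hu' ha, hE, hE', map_smul, map_smul, smul_mul_smul_comm]
    congr 1
    by_cases hl : i + l = 2 * X.dim
    · have hpar : (-1 : W.K) ^ (j * l) = (-1 : W.K) ^ (j * i) := by
        have h1 : j * l + j * i = 2 * (j * X.dim) := by
          rw [← Nat.mul_add, Nat.add_comm l i, hl]
          ring
        have h2 : (-1 : W.K) ^ (j * l) * (-1 : W.K) ^ (j * i) = 1 := by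
          rw [← pow_add, h1, pow_mul, neg_one_sq, one_pow]
        have h3 : (-1 : W.K) ^ (j * i) * (-1 : W.K) ^ (j * i) = 1 := by
          rw [← mul_pow, neg_one_mul, neg_neg, one_pow]
        calc (-1 : W.K) ^ (j * l) = (-1 : W.K) ^ (j * l) *
              ((-1 : W.K) ^ (j * i) * (-1 : W.K) ^ (j * i)) := by rw [h3, mul_one]
          _ = (-1 : W.K) ^ (j * i) := by rw [← mul_assoc, h2, one_mul]
      have hs : (-1 : W.K) ^ (j * i) * (-1 : W.K) ^ (j * i) = 1 := by
        rw [← mul_pow, neg_one_mul, neg_neg, one_pow]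
      rw [hpar]
      linear_combination (-(s * s' * (W.tr X (u * a) * W.tr Y (u' * b)))) * hs
    · have h1 : W.tr X (u * a) = 0 := W.tr_eq_zero (W.mul_mem hu ha) hl
      rw [h1]
      ring

include hF in
/-- The projector to the line of a word. -/
lemma wordE_eq {x : Letter} {l : List Letter} (h : ∀ y ∈ x :: l, y.Good p) :
    ∃ κ : W.K, κ ≠ 0 ∧ ∀ v, wordE F x l v = (κ * W.tr _ (barCls F x l * v)) • F.wordCls x l := by
  induction l generalizing x with
  | nil =>
    have hx := h x List.mem_cons_self
    exact ⟨(W.tr _ (F.eb x * F.e x))⁻¹, inv_ne_zero (pair_ne hF hx), fun v => lproj_apply x v⟩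
  | cons y l ih =>
    have hx := h x List.mem_cons_self
    obtain ⟨κ, hκ, hv⟩ := ih (x := y) (fun z hz => h z (List.mem_cons_of_mem _ hz))
    have hgr := barCls_gr hF (x := y) (l := l) (fun z hz => h z (List.mem_cons_of_mem _ hz))
    refine ⟨(-1 : W.K) ^ ((l.length + 1) * 1) * ((W.tr _ (F.eb x * F.e x))⁻¹ * κ),
      mul_ne_zero (pow_ne_zero _ (neg_ne_zero.2 one_ne_zero))
        (mul_ne_zero (inv_ne_zero (pair_ne hF hx)) hκ), fun v => ?_⟩
    exact ext_line (eb_gr hF hx) hgr (fun y => lproj_apply x y) hv v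

include hF in
lemma wordE_mem {x : Letter} {l : List Letter} (h : ∀ y ∈ x :: l, y.Good p) :
    wordE F x l ∈ KOp W (F.wordVar x l) (F.wordVar x l) 0 := by
  induction l generalizing x with
  | nil => exact lproj_mem hF (h x List.mem_cons_self)
  | cons y l ih =>
    exact KOp.cast (KOp.extHom (lproj_mem hF (h x List.mem_cons_self))
      (ih (fun z hz => h z (List.mem_cons_of_mem _ hz)))) (add_zero 0)

include hF in
lemma wordE_idem {x : Letter} {l : List Letter} (h : ∀ y ∈ x :: l, y.Good p) :
    wordE F x l ∘ₗ wordE F x l = wordE F x l := by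
  induction l generalizing x with
  | nil => exact lproj_idem hF (h x List.mem_cons_self)
  | cons y l ih =>
    have h1 : extHom W (lproj F x) (wordE F y l) ∘ₗ extHom W (lproj F x) (wordE F y l) =
        extHom W (lproj F x) (wordE F y l) := by
      rw [extHom_comp, lproj_idem hF (h x List.mem_cons_self),
        ih (fun z hz => h z (List.mem_cons_of_mem _ hz))]
    exact h1

/-- The line of a word. -/
noncomputable def wordM (x : Letter) (l : List Letter) (h : ∀ y ∈ x :: l, y.Good p) : Mot W where
  X := F.wordVar x l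
  e := wordE F x l
  mem := wordE_mem hF h
  idem := wordE_idem hF h

lemma wordM_cons (x y : Letter) (l : List Letter) (h : ∀ z ∈ x :: y :: l, z.Good p) :
    (wordM hF x (y :: l) h).m = (letM hF x (h x List.mem_cons_self)).m *
      (wordM hF y l (fun z hz => h z (List.mem_cons_of_mem _ hz))).m := by
  rw [← Mot.m_tensor]
  rfl

include hF in
/-- The trace of the product of the class of a word and of the opposite class. -/
lemma bar_pair {x : Letter} {l : List Letter} (h : ∀ y ∈ x :: l, y.Good p) :
    W.tr _ (barCls F x l * F.wordCls x l) ≠ 0 := by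
  induction l generalizing x with
  | nil => exact pair_ne hF (h x List.mem_cons_self)
  | cons y l ih =>
    have hx := h x List.mem_cons_self
    have h1 : W.tr _ ((W.map (fst (F.C x.m) (F.wordVar y l)) (F.eb x) *
      W.map (snd (F.C x.m) (F.wordVar y l)) (barCls F y l)) *
      (W.map (fst (F.C x.m) (F.wordVar y l)) (F.e x) *
      W.map (snd (F.C x.m) (F.wordVar y l)) (F.wordCls y l))) ≠ 0 := by
      rw [tr_ext_mul (barCls_gr hF (fun z hz => h z (List.mem_cons_of_mem _ hz)))
        (((hF.line x hx.pos hx.coprime).eigen hx).1)]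
      exact mul_ne_zero (pow_ne_zero _ (neg_ne_zero.2 one_ne_zero))
        (mul_ne_zero (pair_ne hF hx) (ih (fun z hz => h z (List.mem_cons_of_mem _ hz))))
    exact h1

/-- An algebraic word whose opposite is algebraic gives an algebraic line. -/
lemma algLine_word {x : Letter} {l : List Letter} (h : ∀ y ∈ x :: l, y.Good p)
    (h1 : F.IsAlgebraic (x :: l)) (h2 : F.IsAlgebraic (x.bar :: l.map Letter.bar)) :
    AlgLine (wordM hF x l h) := by
  obtain ⟨j, hj⟩ := h1
  obtain ⟨i, hi⟩ := h2
  have hi' : barCls F x l ∈ spanCycles W (F.wordVar x l) i :=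
    of_bar (F := F) (fun X c => c ∈ spanCycles W X i) hi
  obtain ⟨κ, hκ, hv⟩ := wordE_eq hF h
  suffices key : ∃ (i j : ℤ) (c c' : W.H (F.wordVar x l)), c ∈ spanCycles W (F.wordVar x l) i ∧
      c' ∈ spanCycles W (F.wordVar x l) j ∧ W.tr (F.wordVar x l) (c * c') = 1 ∧
      ∀ v, wordE F x l v = W.tr (F.wordVar x l) (c * v) • c' from key
  refine ⟨i, j, κ • barCls F x l, F.wordCls x l, Submodule.smul_mem _ _ hi', hj, ?_, ?_⟩
  · have h3 := congrArg (fun f => f (F.wordCls x l)) (wordE_idem hF h)
    have h4 : wordE F x l (wordE F x l (F.wordCls x l)) = wordE F x l (F.wordCls x l) := h3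
    set t := κ * W.tr _ (barCls F x l * F.wordCls x l) with ht
    have ht0 : t ≠ 0 := mul_ne_zero hκ (bar_pair hF h)
    have h5 : wordE F x l (F.wordCls x l) = t • F.wordCls x l := hv _
    rw [h5, map_smul, h5] at h4
    have h6 : F.wordCls x l ≠ 0 := by
      intro h0
      apply bar_pair hF h
      rw [h0, mul_zero, map_zero]
    have h7 : t • F.wordCls x l = (1 : W.K) • F.wordCls x l := by
      rw [one_smul]
      exact smul_right_injective _ ht0 h4
    have h8 : t = 1 := smul_left_injective _ h6 h7
    rw [smul_mul_assoc, map_smul, smul_eq_mul]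
    exact h8
  · intro v
    rw [hv, smul_mul_assoc, map_smul, smul_eq_mul]

/-- The morphism `A × D ⟶ (A × B) × C` given by a morphism `D ⟶ B × C`. -/
noncomputable def reassoc (A : 𝒱.Obj) {B C D : 𝒱.Obj} (φ : D ⟶ B.prod C) :
    A.prod D ⟶ (A.prod B).prod C :=
  Obj.lift (Obj.lift (fst A D) (snd A D ≫ φ ≫ fst B C)) (snd A D ≫ φ ≫ snd B C)

lemma reassoc_map (A : 𝒱.Obj) {B C D : 𝒱.Obj} (φ : D ⟶ B.prod C) (a : W.H A) (b : W.H B)
    (c : W.H C) : W.map (reassoc A φ) (W.map (fst (A.prod B) C) (W.map (fst A B) a *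
      W.map (snd A B) b) * W.map (snd (A.prod B) C) c) =
      W.map (fst A D) a * W.map (snd A D) (W.map φ (W.map (fst B C) b * W.map (snd B C) c)) := by
  have e1 : reassoc A φ ≫ fst (A.prod B) C =
      Obj.lift (fst A D) (snd A D ≫ φ ≫ fst B C) := Obj.lift_fst _ _
  have e2 : reassoc A φ ≫ snd (A.prod B) C = snd A D ≫ φ ≫ snd B C := Obj.lift_snd _ _
  have e3 : Obj.lift (fst A D) (snd A D ≫ φ ≫ fst B C) ≫ fst A B = fst A D := Obj.lift_fst _ _
  have e4 : Obj.lift (fst A D) (snd A D ≫ φ ≫ fst B C) ≫ snd A B = snd A D ≫ φ ≫ fst B C :=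
    Obj.lift_snd _ _
  rw [map_mul (W.map (reassoc A φ)), ← W.map_comp, ← W.map_comp, e1, e2, map_mul, ← W.map_comp,
    ← W.map_comp, e3, e4, mul_assoc, map_mul (W.map φ), map_mul (W.map (snd A D)),
    ← W.map_comp, ← W.map_comp, ← W.map_comp, ← W.map_comp, Category.assoc, Category.assoc]

/-- The morphism from the product of all letters to the product of the two parts. -/
noncomputable def joinHom (F : CurveData W) : ∀ (x : Letter) (l : List Letter) (y : Letter)
    (l' : List Letter), F.wordVar x (l ++ y :: l') ⟶ (F.wordVar x l).prod (F.wordVar y l')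
  | _, [], _, _ => 𝟙 _
  | x, z :: l, y, l' => reassoc (F.C x.m) (joinHom F z l y l')

lemma joinHom_map (x : Letter) (l : List Letter) (y : Letter) (l' : List Letter) :
    W.map (joinHom F x l y l') (W.map (fst (F.wordVar x l) (F.wordVar y l')) (F.wordCls x l) *
      W.map (snd (F.wordVar x l) (F.wordVar y l')) (F.wordCls y l')) =
      F.wordCls x (l ++ y :: l') := by
  induction l generalizing x with
  | nil => exact W.map_id _ _
  | cons z l ih =>
    have h1 := reassoc_map (F.C x.m) (joinHom F z l y l') (F.e x) (F.wordCls z l)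
      (F.wordCls y l')
    rw [ih z] at h1
    exact h1

/-- The product of algebraic words is algebraic. -/
lemma IsAlgebraic.append {u w : List Letter} (hu : F.IsAlgebraic u) (hw : F.IsAlgebraic w) :
    F.IsAlgebraic (u ++ w) := by
  cases u with
  | nil => exact hw
  | cons x l =>
    cases w with
    | nil => rw [List.append_nil]; exact hu
    | cons y l' =>
      obtain ⟨i, hi⟩ := hu
      obtain ⟨j, hj⟩ := hw
      refine ⟨i + j, ?_⟩
      have h1 := span_map (joinHom F x l y l') (span_mul
        (span_map (fst (F.wordVar x l) (F.wordVar y l')) hi)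
        (span_map (snd (F.wordVar x l) (F.wordVar y l')) hj))
      rw [joinHom_map] at h1
      exact h1

lemma power_succ (N : ℕ) (w : List Letter) : power (N + 1) w = w ++ power N w := by
  rw [power, List.replicate_succ, List.flatten_cons, power]

lemma power_one (w : List Letter) : power 1 w = w := by
  rw [power_succ, power, List.replicate_zero, List.flatten_nil, List.append_nil]

lemma power_two (w : List Letter) : power 2 w = w ++ w := by
  rw [power_succ, power_one]

lemma mem_power {N : ℕ} {w : List Letter} {y : Letter} (h : y ∈ power N w) : y ∈ w := by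
  rw [power, List.mem_flatten] at h
  obtain ⟨u, hu, hy⟩ := h
  rw [List.eq_of_mem_replicate hu] at hy
  exact hy

lemma map_power (N : ℕ) (w : List Letter) (f : Letter → Letter) :
    (power N w).map f = power N (w.map f) := by
  induction N with
  | zero => rfl
  | succ N ih => rw [power_succ, power_succ, List.map_append, ih]

lemma IsAlgebraic.power {w : List Letter} (h : F.IsAlgebraic w) (N : ℕ) :
    F.IsAlgebraic (power N w) := by
  induction N with
  | zero => exact trivial
  | succ N ih =>
    rw [power_succ]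
    exact IsAlgebraic.append h ih

include hF in
/-- If the opposite class is not orthogonal to all algebraic classes, the word is algebraic. -/
lemma isAlgebraic_of_pair {x : Letter} {l : List Letter} (h : ∀ y ∈ x :: l, y.Good p) {j : ℤ}
    {z : W.H (F.wordVar x l)} (hz : z ∈ spanCycles W (F.wordVar x l) j)
    (hne : W.tr _ (barCls F x l * z) ≠ 0) : F.IsAlgebraic (x :: l) := by
  obtain ⟨κ, hκ, hE⟩ := wordE_eq hF h
  refine ⟨j, ?_⟩
  have h1 : wordE F x l z ∈ spanCycles W (F.wordVar x l) (j + 0) :=
    KOp.map_span (wordE_mem hF h) hz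
  rw [hE, add_zero] at h1
  exact (Submodule.smul_mem_iff _ (mul_ne_zero hκ hne)).1 h1

end Pool.Agent.L0h13.FC
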